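import Pool.Agent.helper61.SAFinal

set_option autoImplicit false

/-!
# Sublinear space complexities of non-erasing and general stack automata

The automata, their runs and the space measures (`Aut`, `Conf`, `Step`, `Run`, `Aut.NonErasing`,
`Aut.spaceOf`, `Aut.Limited`, `Aut.space`, `Aut.hat`, `env`) are defined in
`Pool.Agent.helper61.SADef`, `Pool.Agent.helper61.SAStat` and `Pool.Agent.helper61.SAFinal`.
-/

namespace Pool.Agent.Results.MP_9afdbb_lc.StackSpaceRates

open H61.SA Filter Asymptotics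

/-- The two models: non-erasing stack automata and stack automata. -/
inductive Model where
  | nesa : Model
  | sa : Model

/-- `M` is an automaton of the model `X`. -/
def IsModel (X : Model) {A Γ Q : Type} (M : Aut A Γ Q) : Prop :=
  match X with
  | Model.nesa => M.NonErasing
  | Model.sa => True

/-- Some `z`-limited automaton of the model `X` has space complexity in `Θ(f)`. -/
def RealisedBy (X : Model) (z : Meas) (f : ℕ → ℕ) : Prop :=
  ∃ (A Γ Q : Type) (_ : Fintype A) (_ : Fintype Γ) (_ : Fintype Q) (M : Aut A Γ Q),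
    IsModel X M ∧ M.Limited z ∧ (fun n => (M.space z n : ℝ)) =Θ[atTop] fun n => (f n : ℝ)

/-- `f` is in `Θ(n ^ (k / (k + 1)))`. -/
def Rate (k : ℕ) (f : ℕ → ℕ) : Prop :=
  (fun n => (f n : ℝ)) =Θ[atTop] fun n => (n : ℝ) ^ ((k : ℝ) / (k + 1))

/-- For both models and both measures: (1) an unbounded sublinear growth rate `f` (non-decreasing in
the case of the accept measure) is realised iff `f ∈ Θ(n ^ (k / (k + 1)))` for some integer
`k ≥ 1`; (2) for every realised unbounded sublinear `f`, the envelope `max_{m ≤ n} f m` has such a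
rate; (3) the non-decreasing version of the space complexity of every `z`-limited automaton is
bounded, or linear, or has such a rate. -/
theorem result (X : Model) (z : Meas) :
    (∀ f : ℕ → ℕ, Tendsto f atTop atTop → (fun n => (f n : ℝ)) =o[atTop] (fun n => (n : ℝ)) →
      (z = Meas.accept → Monotone f) → (RealisedBy X z f ↔ ∃ k : ℕ, 1 ≤ k ∧ Rate k f)) ∧
    (∀ f : ℕ → ℕ, Tendsto f atTop atTop → (fun n => (f n : ℝ)) =o[atTop] (fun n => (n : ℝ)) →
      RealisedBy X z f → ∃ k : ℕ, 1 ≤ k ∧ Rate k (env f)) ∧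
    (∀ (A Γ Q : Type) [Fintype A] [Fintype Γ] [Fintype Q] (M : Aut A Γ Q), IsModel X M →
      M.Limited z → (∃ B, ∀ n, M.hat z n ≤ B) ∨
        ((fun n => (M.hat z n : ℝ)) =Θ[atTop] fun n => (n : ℝ)) ∨
        ∃ k : ℕ, 1 ≤ k ∧ Rate k (M.hat z)) := by
  refine ⟨fun f hf ho hmono => ⟨?_, ?_⟩, ?_, ?_⟩
  · rintro ⟨A, Γ, Q, hA, hΓ, hQ, M, -, hM, hΘ⟩
    obtain ⟨k, hk, h⟩ := env_class hM hf ho hΘ
    refine ⟨k, hk, ?_⟩
    cases z with
    | accept =>
      rw [env_of_monotone (hmono rfl)] at h
      exact h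
    | strong => exact (strong_env hM hf hΘ).trans h
  · rintro ⟨k, hk, h⟩
    refine ⟨Unit, Fin k, Option (Bool × Fin k), inferInstance, inferInstance, inferInstance,
      sepAut k, ?_, sep_limited z, (sep_space hk z).trans h.symm⟩
    cases X with
    | nesa => exact sep_nonErasing k
    | sa => exact trivial
  · rintro f hf ho ⟨A, Γ, Q, hA, hΓ, hQ, M, -, hM, hΘ⟩
    exact env_class hM hf ho hΘ
  · intro A Γ Q _ _ _ M _ hM
    exact hat_trichotomy hM

end Pool.Agent.Results.MP_9afdbb_lc.StackSpaceRates
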